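import Pool.Agent.H899.MK.Fin

set_option autoImplicit false

/-!
# The movable cone conjecture for quotients of the blow-up of `E^3` by arbitrary finite groups

Let `E = ℂ / ℤ[ω]` where `ω` is a primitive cube root of unity, let `G` be any finite subgroup of
`GL_3(ℂ)` which preserves the lattice `ℤ[ω]^3`, and let `X = Bl_0(E^3) / G`. Let `m` be the number of
scalar matrices in `G`, let `P` be the image of the exceptional divisor, let `D_i` be the images of the
divisors in `E^3` which are fixed pointwise by some element of `G` other than `1`, and let `e_i` be the
order of the (cyclic) group of the elements of `G` which fix such a divisor pointwise. If `m ≥ 3`, that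
is, if `ω` is in `G`, then `(X, Δ)` is a klt Calabi-Yau pair, where
`Δ = (1 - 3 / m) P + ∑ (1 - 1 / e_i) D_i`; if `m = 3` and `G` contains no reflections, `K_X` itself is
numerically trivial. Examples are the quotients by the cube roots or the sixth roots of unity, with
Picard number `10`, and the quotients by the complex reflection groups `G(3, 1, 3)`, `G(6, 1, 3)`,
`G_25` and `G_26`. The theorem says that the cone `Mov^e(X)` has a rational polyhedral fundamental
domain for the action of `PsAut(X)`, and also for the action of `PsAut(X, Δ)`. This is part (b) of the
conjecture for these pairs, which are threefolds. Part (a) for these pairs is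
`Pool.Agent.Results.MP_ad47bb_ag.EquivariantKummer` of an earlier run. The movable cone is described
explicitly; it is strictly larger than the nef cone.

The proof has the following new ingredients. A class is a pair `(H, b)` where `H` is a hermitian form on
`ℂ^3` and `b` is the coefficient of the exceptional divisor.

* The upper bound (`movable_le`, `eff2`). If `L` is movable, some section does not vanish identically on
  the plane spanned by two lattice vectors `v`, `w`. Its restriction to this plane is a section of a line
  bundle on `Bl_0(E^2)`. If `2 √3 b > H(v, v) + H(w, w) + H(v + w, v + w) + H(v - ω w, v - ω w)`, it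
  vanishes on one of the four elliptic curves in the directions `v`, `w`, `v + w`, `v - ω w`, and
  division by the theta function of this curve gives an induction on `b`.
* The lower bound (`three_dim`, `dec_line`, `movable_qB`). Let `M` be a positive semidefinite form such
  that `M ≥ 1` on all lattice vectors outside a line, and let `H` be a positive definite form such that
  the sum of the values of `H` at the four vectors is at least `3 b` for all `v`, `w`. Then
  `tr(M H) ≥ b`. The proof considers a form `M` where the minimum of the trace is attained, uses the
  first order condition there, and reduces the claim to rank two. By duality, a multiple of `H` is a sum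
  of squares of integral linear functions such that `b` of them, relative to the multiple, are not
  multiples of a given linear function. This gives sections which do not vanish identically on a given
  hyperplane, and for all other divisors one uses translations.
* The same decompositions show that all integral classes in the movable cone are effective, including
  the classes with a degenerate form `H` (`mf_dec`, `eff_of_intM`).
* Reduction theory for the group of the automorphisms of the lattice which commute with `G` and
  Dickson's lemma, now for the sums of the values of the forms at the four vectors.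

`IsMovable`, `movable`, `movCone`, `movEff`, `IsComm`, `IsPsAutGroup` and `HasMovDomain` are defined in
`Pool.Agent.H899.MK.Defs`; `PresLat`, `grp`, `QBundle`, `IsCls`, `NSs`, `NS`, `form`, `coef`,
`integral`, `semiample`, `effective`, `span`, `nefCone`, `effCone` and `IsPullback` in
`Pool.Agent.T6.H34.EK.Defs`; `Lat`, `BlBundle`, its sections and `Normalizes` in
`Pool.Agent.R895.Defs`; `om = ω` and `IsEis` (Eisenstein integers) in `Pool.Agent.R895.Eis`; `LinGrp`,
`Preserves` and `IsFundDomain` in `Pool.Agent.Y167.Stm`; `cone` in `Pool.Agent.Y167.ConeDef`.
-/

namespace Pool.Agent.Results.MP_ad47bb_ag.MovableEisensteinThreefolds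

open Pool.Agent.T6.H34.EK
open Pool.Agent.H899.MK
open Pool.Agent.R895 (Lat om)
open Pool.Agent.Y167.CC (LinGrp)

/-- Let `G` be a finite group of linear automorphisms of `ℂ^3` which preserves the lattice `ℤ[ω]^3`,
let `E = ℂ / ℤ[ω]` and `X = Bl_0(E^3) / G`. A class in `N^1(X)` is a pair `(H, b)` where `H` is a
hermitian form on `ℂ^3` and `b` is the coefficient of the exceptional divisor `-Ẽ` of `Bl_0(E^3)`. The
movable cone of `X` is the cone of all `(H, b)` in `N^1(X)` such that `H` is positive semidefinite,
`b ≥ 0` and `2 √3 b ≤ H(v, v) + H(w, w) + H(v + w, v + w) + H(v - ω w, v - ω w)` for all linearly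
independent lattice vectors `v`, `w`. It is strictly larger than the nef cone. There is a finite set `S`
of integral classes such that the cone `Π` spanned by `S` consists of movable effective classes and is a
fundamental domain for the action of `𝒢` on the cone `Mov^e(X)`, where `𝒢` is the image of `PsAut(X)`,
or any other group with the properties in `IsPsAutGroup`. -/
theorem result (G : Subgroup ((Fin 3 → ℂ) ≃ₗ[ℂ] (Fin 3 → ℂ))) (hfin : Finite G) (hG : PresLat G) :
    (∀ x : NS (grp G hG), x ∈ movCone (grp G hG) ↔
      (∀ v, 0 ≤ (form x v v).re) ∧ 0 ≤ coef x ∧
        ∀ v w : Fin 3 → ℂ, Lat v → Lat w → LinearIndependent ℂ ![v, w] →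
          2 * √3 * coef x ≤ (form x v v).re + (form x w w).re + (form x (v + w) (v + w)).re +
            (form x (v - om • w) (v - om • w)).re) ∧
    nefCone (grp G hG) ⊂ movCone (grp G hG) ∧
    ∀ 𝒢 : LinGrp (NS (grp G hG)), IsPsAutGroup 𝒢 → HasMovDomain 𝒢 := by
  have hft : Fintype G := Fintype.ofFinite G
  refine ⟨fun x => ?_, nef_ssubset, fun 𝒢 h𝒢 => coreM 𝒢 h𝒢⟩
  rw [mem_movCone_iff]
  have h1 : ∀ v w : Fin 3 → ℂ, (3 * (Pool.Agent.R895.kap * coef x) ≤ S4 (form x) v w ↔
      2 * √3 * coef x ≤ (form x v v).re + (form x w w).re + (form x (v + w) (v + w)).re +
        (form x (v - om • w) (v - om • w)).re) := by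
    intro v w
    rw [← mul_assoc, three_kap]
    rfl
  simp only [ind_iff, h1]

end Pool.Agent.Results.MP_ad47bb_ag.MovableEisensteinThreefolds
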